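import Mathlib

set_option autoImplicit false

/-!
Equidistribution of perturbed irrational rotations, with elementary uniform bounds.
-/

namespace Pool.Agent.H77.Ben

open Finset

/-- a set of natural numbers of small diameter -/
lemma card_diam (S : Finset ℕ) (θ L : ℝ) (hθ : 0 < θ) (hL : 0 ≤ L)
    (h : ∀ i ∈ S, ∀ j ∈ S, ((j : ℝ) - i) * θ ≤ L) : (S.card : ℝ) ≤ L / θ + 1 := by
  rcases S.eq_empty_or_nonempty with rfl | hne
  · simp; positivity
  · have h1 : S ⊆ Icc (S.min' hne) (S.max' hne) := fun i hi =>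
      mem_Icc.2 ⟨S.min'_le i hi, S.le_max' i hi⟩
    have h2 := card_le_card h1
    rw [Nat.card_Icc] at h2
    have h3 := h _ (S.min'_mem hne) _ (S.max'_mem hne)
    have h4 : ((S.max' hne : ℕ) : ℝ) - (S.min' hne : ℕ) ≤ L / θ := by
      rw [le_div_iff₀ hθ]; exact h3
    have h5 : S.min' hne ≤ S.max' hne := S.min'_le _ (S.max'_mem hne)
    have h6 : (S.card : ℝ) ≤ ((S.max' hne + 1 - S.min' hne : ℕ) : ℝ) := by exact_mod_cast h2
    rw [Nat.cast_sub (by omega)] at h6
    push_cast at h6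
    linarith

/-- one slowly moving block -/
lemma block (c θ δ a b : ℝ) (hθ : θ ≠ 0) (hδ : 0 ≤ δ) (hab : a ≤ b) (J : ℕ)
    (y : ℕ → ℝ) (hy : ∀ j < J, |y j - (c + j * θ)| ≤ δ) :
    (((range J).filter fun j => a ≤ Int.fract (y j) ∧ Int.fract (y j) < b).card : ℝ) ≤
      (J * |θ| + 2 * δ + 2) * ((b - a + 2 * δ) / |θ| + 1) := by
  classical
  have hθ' : 0 < |θ| := abs_pos.2 hθ
  set u : ℝ := min c (c + J * θ) with hu
  set t : Finset ℤ := Icc ⌊u - δ⌋ ⌊u + J * |θ| + δ⌋ with ht
  set S := (range J).filter fun j => a ≤ Int.fract (y j) ∧ Int.fract (y j) < b with hS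
  have hmap : ∀ j ∈ S, ⌊y j⌋ ∈ t := by
    intro j hj
    rw [hS, mem_filter, mem_range] at hj
    have h1 := abs_le.1 (hy j hj.1)
    have hjJ : (j : ℝ) ≤ J := by exact_mod_cast hj.1.le
    have hj0 : (0 : ℝ) ≤ j := Nat.cast_nonneg j
    have h2 : u ≤ c + j * θ := by
      rcases le_or_gt 0 θ with h | h
      · exact (min_le_left _ _).trans (by nlinarith)
      · exact (min_le_right _ _).trans (by nlinarith)
    have h3 : c + j * θ ≤ u + J * |θ| := by
      rcases le_or_gt 0 θ with h | h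
      · rw [abs_of_nonneg h, hu, min_eq_left (by nlinarith [Nat.cast_nonneg (α := ℝ) J])]
        nlinarith
      · rw [abs_of_neg h, hu, min_eq_right (by nlinarith [Nat.cast_nonneg (α := ℝ) J])]
        nlinarith
    rw [ht, mem_Icc]
    exact ⟨Int.floor_le_floor (by linarith), Int.floor_le_floor (by linarith)⟩
  have hcard : (t.card : ℝ) ≤ J * |θ| + 2 * δ + 2 := by
    rw [ht, Int.card_Icc]
    have h1 : ⌊u - δ⌋ ≤ ⌊u + J * |θ| + δ⌋ + 1 := by
      have : ⌊u - δ⌋ ≤ ⌊u + J * |θ| + δ⌋ := Int.floor_le_floor (by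
        have : 0 ≤ J * |θ| := by positivity
        linarith)
      omega
    have h2 : (((⌊u + J * |θ| + δ⌋ + 1 - ⌊u - δ⌋).toNat : ℤ) : ℝ) =
        ((⌊u + J * |θ| + δ⌋ + 1 - ⌊u - δ⌋ : ℤ) : ℝ) := by
      rw [Int.toNat_of_nonneg (by omega)]
    have h3 : (((⌊u + J * |θ| + δ⌋ + 1 - ⌊u - δ⌋).toNat : ℕ) : ℝ) =
        ((⌊u + J * |θ| + δ⌋ + 1 - ⌊u - δ⌋ : ℤ) : ℝ) := by
      rw [← h2]; norm_cast
    rw [h3]
    push_cast
    have h4 := Int.floor_le (u + J * |θ| + δ)
    have h5 := Int.lt_floor_add_one (u - δ)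
    linarith
  have hfib : ∀ n ∈ t, ((S.filter fun j => ⌊y j⌋ = n).card : ℝ) ≤ (b - a + 2 * δ) / |θ| + 1 := by
    intro n _
    apply card_diam _ _ _ hθ' (by linarith)
    intro i hi j hj
    rw [mem_filter, hS, mem_filter, mem_range] at hi hj
    have e1 : y i - (n : ℝ) = Int.fract (y i) := by rw [← hi.2]; rfl
    have e2 : y j - (n : ℝ) = Int.fract (y j) := by rw [← hj.2]; rfl
    have h1 := abs_le.1 (hy i hi.1.1)
    have h2 := abs_le.1 (hy j hj.1.1)
    have h3 : |((j : ℝ) - i) * θ| ≤ b - a + 2 * δ := by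
      rw [abs_le]
      constructor <;> nlinarith [hi.1.2.1, hi.1.2.2, hj.1.2.1, hj.1.2.2]
    rw [abs_mul] at h3
    calc ((j : ℝ) - i) * |θ| ≤ |(j : ℝ) - i| * |θ| := by
          apply mul_le_mul_of_nonneg_right (le_abs_self _) hθ'.le
      _ ≤ _ := h3
  have hsum : S.card = ∑ n ∈ t, (S.filter fun j => ⌊y j⌋ = n).card :=
    card_eq_sum_card_fiberwise hmap
  rw [hsum]
  push_cast
  calc ∑ n ∈ t, ((S.filter fun j => ⌊y j⌋ = n).card : ℝ)
      ≤ ∑ _n ∈ t, ((b - a + 2 * δ) / |θ| + 1) := sum_le_sum hfib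
    _ = t.card * ((b - a + 2 * δ) / |θ| + 1) := by rw [sum_const, nsmul_eq_mul]
    _ ≤ _ := by
        apply mul_le_mul_of_nonneg_right hcard
        have : 0 ≤ (b - a + 2 * δ) / |θ| := div_nonneg (by linarith) hθ'.le
        linarith

/-- the upper bound -/
lemma rot_upper (α : ℝ) (hα : Irrational α) (δ : ℝ) (hδ : 0 < δ) : ∃ m₀ : ℕ, ∀ m : ℕ, m₀ ≤ m →
    ∀ (c : ℝ) (y : ℕ → ℝ), (∀ i < m, |y i - (c + i * α)| ≤ δ) → ∀ a b : ℝ, 0 ≤ a → a ≤ b → b ≤ 1 →
      (((range m).filter fun i => a ≤ Int.fract (y i) ∧ Int.fract (y i) < b).card : ℝ) ≤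
        m * (b - a + 4 * δ) := by
  classical
  obtain ⟨N, hN⟩ := exists_nat_gt (1 / δ)
  have hN0 : 0 < N := by
    have : (0 : ℝ) < N := lt_trans (by positivity) hN
    exact_mod_cast this
  obtain ⟨p, k, hk0, -, hk⟩ := Real.exists_int_int_abs_mul_sub_le α hN0
  obtain ⟨q, rfl⟩ : ∃ q : ℕ, k = q := ⟨k.toNat, (Int.toNat_of_nonneg hk0.le).symm⟩
  have hq0 : 0 < q := by exact_mod_cast hk0
  set θ : ℝ := (q : ℝ) * α - p with hθ
  have hθ0 : θ ≠ 0 := by
    intro h0
    have h1 : (q : ℝ) * α = p := by linarith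
    have h2 : Irrational ((q : ℝ) * α) := by
      have := hα.natCast_mul (Nat.pos_iff_ne_zero.1 hq0)
      exact_mod_cast this
    rw [h1] at h2
    exact (Int.not_irrational p) h2
  have hθδ : |θ| ≤ δ := by
    have h1 : |θ| ≤ 1 / (N + 1) := by
      have := hk
      push_cast at this
      exact this
    refine h1.trans ?_
    rw [div_le_iff₀ (by positivity)]
    rw [div_lt_iff₀ hδ] at hN
    nlinarith
  have hθ' : 0 < |θ| := abs_pos.2 hθ0
  set K : ℝ := q * (1 + 2 * δ) + q * |θ| + q * (2 * δ + 2) * (1 + 2 * δ) / |θ| + q * (2 * δ + 2) with hK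
  obtain ⟨m₀, hm₀⟩ := exists_nat_gt (K / δ)
  refine ⟨m₀, fun m hm c y hy a b ha hab hb => ?_⟩
  have hmK : K ≤ m * δ := by
    rw [div_lt_iff₀ hδ] at hm₀
    have : (m₀ : ℝ) ≤ m := by exact_mod_cast hm
    nlinarith
  set P : ℝ → Prop := fun z => a ≤ Int.fract z ∧ Int.fract z < b with hP
  set S := (range m).filter fun i => P (y i) with hS
  set J : ℕ := m / q + 1 with hJ
  have hfib : ∀ r ∈ range q, ((S.filter fun i => i % q = r).card : ℝ) ≤
      (J * |θ| + 2 * δ + 2) * ((b - a + 2 * δ) / |θ| + 1) := by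
    intro r hr
    rw [mem_range] at hr
    set y' : ℕ → ℝ := fun j => if r + q * j < m then y (r + q * j) - ((j * p : ℤ) : ℝ) else
      (c + r * α) + j * θ with hy'
    have h1 := block (c + r * α) θ δ a b hθ0 hδ.le hab J y' (by
      intro j _
      rw [hy']
      dsimp only
      split_ifs with h
      · have h2 := hy _ h
        have e : y (r + q * j) - ((j * p : ℤ) : ℝ) - (c + r * α + j * θ) =
            y (r + q * j) - (c + ((r + q * j : ℕ) : ℝ) * α) := by
          rw [hθ]; push_cast; ring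
        rw [e]; exact h2
      · rw [sub_self, abs_zero]; exact hδ.le)
    refine le_trans ?_ h1
    have h2 : (S.filter fun i => i % q = r).card ≤ ((range J).filter fun j => P (y' j)).card := by
      apply card_le_card_of_injOn (fun i => i / q)
      · intro i hi
        rw [mem_coe, mem_filter, hS, mem_filter, mem_range] at hi
        have e1 : r + q * (i / q) = i := by
          rw [← hi.2]; exact Nat.mod_add_div i q
        have e2 : y' (i / q) = y i - (((i / q : ℕ) * p : ℤ) : ℝ) := by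
          rw [hy']
          dsimp only
          rw [e1, if_pos hi.1.1]
        rw [mem_coe, mem_filter, mem_range]
        refine ⟨?_, ?_⟩
        · have : i / q ≤ m / q := Nat.div_le_div_right hi.1.1.le
          exact lt_of_le_of_lt this (by rw [hJ]; exact Nat.lt_succ_self _)
        · rw [e2, hP]
          dsimp only
          rw [Int.fract_sub_intCast]
          exact hi.1.2
      · intro i hi j hj hij
        rw [mem_coe, mem_filter] at hi hj
        have e1 : r + q * (i / q) = i := by rw [← hi.2]; exact Nat.mod_add_div i q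
        have e2 : r + q * (j / q) = j := by rw [← hj.2]; exact Nat.mod_add_div j q
        have hij' : i / q = j / q := hij
        rw [← e1, ← e2, hij']
    exact_mod_cast h2
  have hsum : S.card = ∑ r ∈ range q, (S.filter fun i => i % q = r).card :=
    card_eq_sum_card_fiberwise (fun i _ => mem_range.2 (Nat.mod_lt _ hq0))
  have hJq : (J : ℝ) * q ≤ m + q := by
    have h1 : m / q * q ≤ m := Nat.div_mul_le_self m q
    have h2 : ((m / q * q : ℕ) : ℝ) ≤ m := by exact_mod_cast h1
    rw [hJ]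
    push_cast at h2 ⊢
    linarith
  have hb0 : 0 ≤ (b - a + 2 * δ) / |θ| := div_nonneg (by linarith) hθ'.le
  calc (S.card : ℝ) = ∑ r ∈ range q, ((S.filter fun i => i % q = r).card : ℝ) := by
        rw [hsum]; push_cast; rfl
    _ ≤ ∑ _r ∈ range q, (J * |θ| + 2 * δ + 2) * ((b - a + 2 * δ) / |θ| + 1) := sum_le_sum hfib
    _ = (J * q * |θ| + q * (2 * δ + 2)) * ((b - a + 2 * δ) / |θ| + 1) := by
        rw [sum_const, card_range, nsmul_eq_mul]; ring
    _ ≤ ((m + q) * |θ| + q * (2 * δ + 2)) * ((b - a + 2 * δ) / |θ| + 1) := by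
        apply mul_le_mul_of_nonneg_right _ (by linarith)
        have := mul_le_mul_of_nonneg_right hJq hθ'.le
        linarith
    _ = (m + q) * (b - a + 2 * δ) + (m + q) * |θ| + q * (2 * δ + 2) * (b - a + 2 * δ) / |θ| +
        q * (2 * δ + 2) := by
        field_simp
        ring
    _ ≤ m * (b - a + 3 * δ) + K := by
        have e1 : (q : ℝ) * (2 * δ + 2) * (b - a + 2 * δ) / |θ| ≤
            q * (2 * δ + 2) * (1 + 2 * δ) / |θ| := by
          apply div_le_div_of_nonneg_right _ hθ'.le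
          apply mul_le_mul_of_nonneg_left (by linarith) (by positivity)
        have e2 : (m : ℝ) * |θ| ≤ m * δ := mul_le_mul_of_nonneg_left hθδ (Nat.cast_nonneg m)
        have e3 : (q : ℝ) * (b - a + 2 * δ) ≤ q * (1 + 2 * δ) :=
          mul_le_mul_of_nonneg_left (by linarith) (Nat.cast_nonneg q)
        rw [hK]
        nlinarith
    _ ≤ m * (b - a + 4 * δ) := by linarith

/-- **Perturbed rotations are equidistributed**, uniformly. -/
theorem rot_equi (α : ℝ) (hα : Irrational α) (ε : ℝ) (hε : 0 < ε) : ∃ (m₀ : ℕ) (δ : ℝ), 0 < δ ∧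
    ∀ m : ℕ, m₀ ≤ m →
    ∀ (c : ℝ) (y : ℕ → ℝ), (∀ i < m, |y i - (c + i * α)| ≤ δ) → ∀ a b : ℝ, 0 ≤ a → a ≤ b → b ≤ 1 →
      |(((range m).filter fun i => a ≤ Int.fract (y i) ∧ Int.fract (y i) < b).card : ℝ) -
        (b - a) * m| ≤ ε * m := by
  classical
  obtain ⟨m₀, h⟩ := rot_upper α hα (ε / 8) (by positivity)
  refine ⟨m₀, ε / 8, by positivity, fun m hm c y hy a b ha hab hb => ?_⟩
  have h1 := h m hm c y hy a b ha hab hb
  have h2 := h m hm c y hy 0 a le_rfl ha (hab.trans hb)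
  have h3 := h m hm c y hy b 1 (ha.trans hab) hb le_rfl
  have hpart : (range m).card ≤ ((range m).filter fun i => a ≤ Int.fract (y i) ∧ Int.fract (y i) < b).card +
      (((range m).filter fun i => 0 ≤ Int.fract (y i) ∧ Int.fract (y i) < a).card +
      ((range m).filter fun i => b ≤ Int.fract (y i) ∧ Int.fract (y i) < 1).card) := by
    refine le_trans (card_le_card (t := ((range m).filter fun i => a ≤ Int.fract (y i) ∧ Int.fract (y i) < b) ∪
      (((range m).filter fun i => 0 ≤ Int.fract (y i) ∧ Int.fract (y i) < a) ∪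
      ((range m).filter fun i => b ≤ Int.fract (y i) ∧ Int.fract (y i) < 1))) ?_)
      ((card_union_le _ _).trans (Nat.add_le_add_left (card_union_le _ _) _))
    intro i hi
    simp only [mem_union, mem_filter]
    have e1 := Int.fract_nonneg (y i)
    have e2 := Int.fract_lt_one (y i)
    rcases lt_or_ge (Int.fract (y i)) a with h | h
    · exact Or.inr (Or.inl ⟨hi, e1, h⟩)
    · rcases lt_or_ge (Int.fract (y i)) b with h' | h'
      · exact Or.inl ⟨hi, h, h'⟩
      · exact Or.inr (Or.inr ⟨hi, h', e2⟩)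
  have hpart' : (m : ℝ) ≤ ((range m).filter fun i => a ≤ Int.fract (y i) ∧ Int.fract (y i) < b).card +
      (((range m).filter fun i => 0 ≤ Int.fract (y i) ∧ Int.fract (y i) < a).card +
      ((range m).filter fun i => b ≤ Int.fract (y i) ∧ Int.fract (y i) < 1).card) := by
    rw [card_range] at hpart
    exact_mod_cast hpart
  have hm0 : (0 : ℝ) ≤ m * ε := by positivity
  rw [abs_le]
  constructor
  · linarith
  · linarith

end Pool.Agent.H77.Ben
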