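import Pool.Agent.H77.Ben.Rot
import Pool.Graph.R_seed8.H319R2.Measure

set_option autoImplicit false

/-!
Perturbed rotations by numbers of finite type: power saving for the discrepancy.
-/

namespace Pool.Agent.H77.Ben

open Finset

/-- badly approximable up to the power `13` -/
def Typ (α : ℝ) : Prop := ∃ c : ℝ, 0 < c ∧ ∀ (q : ℕ) (p : ℤ), 1 ≤ q → c ≤ (q : ℝ) ^ 13 * |(q : ℝ) * α - p|

/-- the upper bound -/
lemma rotq_upper (α : ℝ) (hα : Typ α) : ∃ C : ℝ, 0 < C ∧ ∀ m : ℕ, 1 ≤ m → ∀ δ : ℝ, 0 ≤ δ →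
    ∀ (c : ℝ) (y : ℕ → ℝ), (∀ i < m, |y i - (c + i * α)| ≤ δ) → ∀ a b : ℝ, 0 ≤ a → a ≤ b → b ≤ 1 →
      (((range m).filter fun i => a ≤ Int.fract (y i) ∧ Int.fract (y i) < b).card : ℝ) ≤
        m * (b - a) + 2 * (m * δ) + C * (m : ℝ) ^ (14 / 15 : ℝ) := by
  classical
  obtain ⟨c₀, hc₀, htyp⟩ := hα
  refine ⟨2 + 14 + 12 * 2 ^ 14 / c₀, by positivity, fun m hm δ hδ c y hy a b ha hab hb => ?_⟩
  have hm0 : (0 : ℝ) < m := by exact_mod_cast hm
  have hm1 : (1 : ℝ) ≤ m := by exact_mod_cast hm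
  have hC : 0 ≤ (2 + 14 + 12 * 2 ^ 14 / c₀ : ℝ) := by positivity
  have hmp : 0 ≤ (m : ℝ) ^ (14 / 15 : ℝ) := by positivity
  rcases lt_or_ge 1 δ with hδ1 | hδ1
  · have h1 : (((range m).filter fun i => a ≤ Int.fract (y i) ∧ Int.fract (y i) < b).card : ℝ) ≤ m := by
      have := card_filter_le (range m) (fun i => a ≤ Int.fract (y i) ∧ Int.fract (y i) < b)
      rw [card_range] at this
      exact_mod_cast this
    have h2 : (m : ℝ) ≤ m * δ := by nlinarith
    have h3 : 0 ≤ (m : ℝ) * (b - a) := mul_nonneg hm0.le (by linarith)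
    have h4 := mul_nonneg hC hmp
    linarith
  set M : ℝ := (m : ℝ) ^ (1 / 15 : ℝ) with hM
  have hM1 : 1 ≤ M := Real.one_le_rpow hm1 (by norm_num)
  have hM0 : 0 < M := by linarith
  have hM14 : M ^ 14 = (m : ℝ) ^ (14 / 15 : ℝ) := by
    rw [hM, ← Real.rpow_natCast, ← Real.rpow_mul hm0.le]; norm_num
  have hM15 : M ^ 15 = m := by
    rw [hM, ← Real.rpow_natCast, ← Real.rpow_mul hm0.le]; norm_num
  have hMle : M ≤ M ^ 14 := le_self_pow₀ hM1 (by norm_num)
  set N : ℕ := ⌈M⌉₊ with hN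
  have hN0 : 0 < N := Nat.ceil_pos.2 hM0
  have hNM : M ≤ N := Nat.le_ceil M
  have hN2 : (N : ℝ) ≤ 2 * M := by
    have := (Nat.ceil_lt_add_one hM0.le).le
    linarith
  obtain ⟨p, k, hk0, hkN, hk⟩ := Real.exists_int_int_abs_mul_sub_le α hN0
  obtain ⟨q, rfl⟩ : ∃ q : ℕ, k = q := ⟨k.toNat, (Int.toNat_of_nonneg hk0.le).symm⟩
  have hq0 : 0 < q := by exact_mod_cast hk0
  have hqN : (q : ℝ) ≤ N := by exact_mod_cast hkN
  set θ : ℝ := (q : ℝ) * α - p with hθ
  have hqr : (1 : ℝ) ≤ q := by exact_mod_cast hq0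
  have hlow := htyp q p hq0
  rw [← hθ] at hlow
  have hθ0 : θ ≠ 0 := by
    intro h0
    rw [h0, abs_zero, mul_zero] at hlow
    linarith
  have hθM : |θ| ≤ 1 / M := by
    have h1 : |θ| ≤ 1 / (N + 1) := by
      have := hk
      push_cast at this
      exact this
    refine h1.trans (one_div_le_one_div_of_le hM0 (by linarith))
  have hθ' : 0 < |θ| := abs_pos.2 hθ0
  have hqθ : (q : ℝ) / |θ| ≤ 2 ^ 14 * M ^ 14 / c₀ := by
    rw [div_le_div_iff₀ hθ' hc₀]
    have h1 : (q : ℝ) * c₀ ≤ q * (q ^ 13 * |θ|) := mul_le_mul_of_nonneg_left hlow (by linarith)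
    have h2 : (q : ℝ) * (q ^ 13 * |θ|) = q ^ 14 * |θ| := by ring
    have h3 : (q : ℝ) ^ 14 ≤ (2 * M) ^ 14 := pow_le_pow_left₀ (by linarith) (hqN.trans hN2) 14
    have h4 : (2 * M) ^ 14 = 2 ^ 14 * M ^ 14 := by ring
    rw [h4] at h3
    calc (q : ℝ) * c₀ ≤ q ^ 14 * |θ| := by rw [← h2]; exact h1
      _ ≤ _ := mul_le_mul_of_nonneg_right h3 hθ'.le
  set P : ℝ → Prop := fun z => a ≤ Int.fract z ∧ Int.fract z < b with hP
  set S := (range m).filter fun i => P (y i) with hS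
  set J : ℕ := m / q + 1 with hJ
  have hfib : ∀ r ∈ range q, ((S.filter fun i => i % q = r).card : ℝ) ≤
      (J * |θ| + 2 * δ + 2) * ((b - a + 2 * δ) / |θ| + 1) := by
    intro r hr
    rw [mem_range] at hr
    set y' : ℕ → ℝ := fun j => if r + q * j < m then y (r + q * j) - ((j * p : ℤ) : ℝ) else
      (c + r * α) + j * θ with hy'
    have h1 := block (c + r * α) θ δ a b hθ0 hδ hab J y' (by
      intro j _
      rw [hy']
      dsimp only
      split_ifs with h
      · have h2 := hy _ h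
        have e : y (r + q * j) - ((j * p : ℤ) : ℝ) - (c + r * α + j * θ) =
            y (r + q * j) - (c + ((r + q * j : ℕ) : ℝ) * α) := by
          rw [hθ]; push_cast; ring
        rw [e]; exact h2
      · rw [sub_self, abs_zero]; exact hδ)
    refine le_trans ?_ h1
    have h2 : (S.filter fun i => i % q = r).card ≤ ((range J).filter fun j => P (y' j)).card := by
      apply card_le_card_of_injOn (fun i => i / q)
      · intro i hi
        rw [mem_coe, mem_filter, hS, mem_filter, mem_range] at hi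
        have e1 : r + q * (i / q) = i := by
          rw [← hi.2]; exact Nat.mod_add_div i q
        have e2 : y' (i / q) = y i - (((i / q : ℕ) * p : ℤ) : ℝ) := by
          rw [hy']
          dsimp only
          rw [e1, if_pos hi.1.1]
        rw [mem_coe, mem_filter, mem_range]
        refine ⟨?_, ?_⟩
        · have : i / q ≤ m / q := Nat.div_le_div_right hi.1.1.le
          exact lt_of_le_of_lt this (by rw [hJ]; exact Nat.lt_succ_self _)
        · rw [e2, hP]
          dsimp only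
          rw [Int.fract_sub_intCast]
          exact hi.1.2
      · intro i hi j hj hij
        rw [mem_coe, mem_filter] at hi hj
        have e1 : r + q * (i / q) = i := by rw [← hi.2]; exact Nat.mod_add_div i q
        have e2 : r + q * (j / q) = j := by rw [← hj.2]; exact Nat.mod_add_div j q
        have hij' : i / q = j / q := hij
        rw [← e1, ← e2, hij']
    exact_mod_cast h2
  have hsum : S.card = ∑ r ∈ range q, (S.filter fun i => i % q = r).card :=
    card_eq_sum_card_fiberwise (fun i _ => mem_range.2 (Nat.mod_lt _ hq0))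
  have hJq : (J : ℝ) * q ≤ m + q := by
    have h1 : m / q * q ≤ m := Nat.div_mul_le_self m q
    have h2 : ((m / q * q : ℕ) : ℝ) ≤ m := by exact_mod_cast h1
    rw [hJ]
    push_cast at h2 ⊢
    linarith
  have hb0 : 0 ≤ (b - a + 2 * δ) / |θ| := div_nonneg (by linarith) hθ'.le
  have hq2 : (q : ℝ) ≤ 2 * M := hqN.trans hN2
  calc (S.card : ℝ) = ∑ r ∈ range q, ((S.filter fun i => i % q = r).card : ℝ) := by
        rw [hsum]; push_cast; rfl
    _ ≤ ∑ _r ∈ range q, (J * |θ| + 2 * δ + 2) * ((b - a + 2 * δ) / |θ| + 1) := sum_le_sum hfib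
    _ = (J * q * |θ| + q * (2 * δ + 2)) * ((b - a + 2 * δ) / |θ| + 1) := by
        rw [sum_const, card_range, nsmul_eq_mul]; ring
    _ ≤ ((m + q) * |θ| + q * (2 * δ + 2)) * ((b - a + 2 * δ) / |θ| + 1) := by
        apply mul_le_mul_of_nonneg_right _ (by linarith)
        have := mul_le_mul_of_nonneg_right hJq hθ'.le
        linarith
    _ = m * (b - a) + 2 * (m * δ) + q * (b - a + 2 * δ) + m * |θ| + q * |θ| +
        (q / |θ|) * ((2 * δ + 2) * (b - a + 2 * δ)) + q * (2 * δ + 2) := by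
        field_simp
        ring
    _ ≤ m * (b - a) + 2 * (m * δ) + 2 * M * 3 + M ^ 14 + 1 +
        (2 ^ 14 * M ^ 14 / c₀) * 12 + 2 * M * 4 := by
        have e1 : (q : ℝ) * (b - a + 2 * δ) ≤ 2 * M * 3 :=
          mul_le_mul hq2 (by linarith) (by linarith) (by positivity)
        have e2 : (m : ℝ) * |θ| ≤ M ^ 14 := by
          have h1 : (m : ℝ) * |θ| ≤ m * (1 / M) := mul_le_mul_of_nonneg_left hθM hm0.le
          have h2 : (m : ℝ) * (1 / M) = M ^ 14 := by
            rw [← hM15]; field_simp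
          linarith
        have e3 : (q : ℝ) * |θ| ≤ 1 := by
          have h1 : |θ| ≤ 1 / (N + 1) := by
            have := hk
            push_cast at this
            exact this
          rw [le_div_iff₀ (by positivity)] at h1
          nlinarith
        have e4 : (q : ℝ) / |θ| * ((2 * δ + 2) * (b - a + 2 * δ)) ≤ 2 ^ 14 * M ^ 14 / c₀ * 12 := by
          apply mul_le_mul hqθ _ _ (by positivity)
          · nlinarith
          · apply mul_nonneg <;> linarith
        have e5 : (q : ℝ) * (2 * δ + 2) ≤ 2 * M * 4 :=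
          mul_le_mul hq2 (by linarith) (by linarith) (by positivity)
        linarith
    _ ≤ m * (b - a) + 2 * (m * δ) + (2 + 14 + 12 * 2 ^ 14 / c₀) * (m : ℝ) ^ (14 / 15 : ℝ) := by
        rw [← hM14]
        have h1 : (1 : ℝ) ≤ M ^ 14 := one_le_pow₀ hM1
        have h2 : 2 ^ 14 * M ^ 14 / c₀ * 12 = 12 * 2 ^ 14 / c₀ * M ^ 14 := by ring
        rw [h2]
        nlinarith

/-- **Power saving for perturbed rotations.** -/
theorem rotq (α : ℝ) (hα : Typ α) : ∃ C : ℝ, 0 < C ∧ ∀ m : ℕ, 1 ≤ m → ∀ δ : ℝ, 0 ≤ δ →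
    ∀ (c : ℝ) (y : ℕ → ℝ), (∀ i < m, |y i - (c + i * α)| ≤ δ) → ∀ a b : ℝ, 0 ≤ a → a ≤ b → b ≤ 1 →
      |(((range m).filter fun i => a ≤ Int.fract (y i) ∧ Int.fract (y i) < b).card : ℝ) -
        (b - a) * m| ≤ C * (δ + (m : ℝ) ^ (-(1 / 15) : ℝ)) * m := by
  classical
  obtain ⟨C, hC, h⟩ := rotq_upper α hα
  refine ⟨4 + 2 * C, by positivity, fun m hm δ hδ c y hy a b ha hab hb => ?_⟩
  have hm0 : (0 : ℝ) < m := by exact_mod_cast hm
  have h1 := h m hm δ hδ c y hy a b ha hab hb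
  have h2 := h m hm δ hδ c y hy 0 a le_rfl ha (hab.trans hb)
  have h3 := h m hm δ hδ c y hy b 1 (ha.trans hab) hb le_rfl
  have hpart : (range m).card ≤ ((range m).filter fun i => a ≤ Int.fract (y i) ∧ Int.fract (y i) < b).card +
      (((range m).filter fun i => 0 ≤ Int.fract (y i) ∧ Int.fract (y i) < a).card +
      ((range m).filter fun i => b ≤ Int.fract (y i) ∧ Int.fract (y i) < 1).card) := by
    refine le_trans (card_le_card (t := ((range m).filter fun i => a ≤ Int.fract (y i) ∧ Int.fract (y i) < b) ∪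
      (((range m).filter fun i => 0 ≤ Int.fract (y i) ∧ Int.fract (y i) < a) ∪
      ((range m).filter fun i => b ≤ Int.fract (y i) ∧ Int.fract (y i) < 1))) ?_)
      ((card_union_le _ _).trans (Nat.add_le_add_left (card_union_le _ _) _))
    intro i hi
    simp only [mem_union, mem_filter]
    have e1 := Int.fract_nonneg (y i)
    have e2 := Int.fract_lt_one (y i)
    rcases lt_or_ge (Int.fract (y i)) a with h | h
    · exact Or.inr (Or.inl ⟨hi, e1, h⟩)
    · rcases lt_or_ge (Int.fract (y i)) b with h' | h'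
      · exact Or.inl ⟨hi, h, h'⟩
      · exact Or.inr (Or.inr ⟨hi, h', e2⟩)
  have hpart' : (m : ℝ) ≤ ((range m).filter fun i => a ≤ Int.fract (y i) ∧ Int.fract (y i) < b).card +
      (((range m).filter fun i => 0 ≤ Int.fract (y i) ∧ Int.fract (y i) < a).card +
      ((range m).filter fun i => b ≤ Int.fract (y i) ∧ Int.fract (y i) < 1).card) := by
    rw [card_range] at hpart
    exact_mod_cast hpart
  have hpow : (m : ℝ) ^ (14 / 15 : ℝ) = (m : ℝ) ^ (-(1 / 15) : ℝ) * m := by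
    rw [← Real.rpow_add_one hm0.ne']; norm_num
  rw [hpow] at h1 h2 h3
  have hp0 : 0 ≤ (m : ℝ) ^ (-(1 / 15) : ℝ) := by positivity
  have hx : 0 ≤ (m : ℝ) * δ := by positivity
  have hy' : 0 ≤ (m : ℝ) ^ (-(1 / 15) : ℝ) * m := by positivity
  have hz : (4 + 2 * C) * (δ + (m : ℝ) ^ (-(1 / 15) : ℝ)) * m =
      4 * (m * δ) + 2 * C * ((m : ℝ) ^ (-(1 / 15) : ℝ) * m) + 4 * ((m : ℝ) ^ (-(1 / 15) : ℝ) * m) +
      2 * C * (m * δ) := by ring
  have hCx : 0 ≤ C * (m * δ) := by positivity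
  have hCy : 0 ≤ C * ((m : ℝ) ^ (-(1 / 15) : ℝ) * m) := by positivity
  rw [hz, abs_le]
  constructor <;> linarith

/-- numbers given by `log 2` and `log 3` are of this type -/
lemma typ_of (α L K : ℝ) (hL : 0 < L) (hK : 0 ≤ K) (f g : ℤ → ℤ → ℤ)
    (hform : ∀ (q p : ℤ), ((q : ℝ) * α - p) * L = f q p * Real.log 2 + g q p * Real.log 3)
    (hne : ∀ q p : ℤ, 1 ≤ q → f q p ≠ 0 ∨ g q p ≠ 0)
    (hsize : ∀ q p : ℤ, 1 ≤ q → |(q : ℝ) * α - p| ≤ 1 → ((|f q p| + |g q p| : ℤ) : ℝ) ≤ K * q) :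
    Typ α := by
  obtain ⟨c, hc, h⟩ := Pool.Agent.H319R2.measure
  refine ⟨min 1 (c / ((K + 1) ^ 13 * L)), by positivity, fun q p hq => ?_⟩
  have hqr : (1 : ℝ) ≤ q := by exact_mod_cast hq
  have hq' : (1 : ℤ) ≤ (q : ℤ) := by exact_mod_cast hq
  rcases le_or_gt (|(q : ℝ) * α - p|) 1 with h1 | h1
  · refine (min_le_right _ _).trans ?_
    have h2 := h (f q p) (g q p) (hne q p hq')
    have h3 := hsize q p hq' (by exact_mod_cast h1)
    have h4 := hform q p
    have h5 : |((q : ℤ) : ℝ) * α - p| * L = |(f q p : ℝ) * Real.log 2 + (g q p : ℝ) * Real.log 3| := by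
      rw [← h4, abs_mul, abs_of_pos hL]
    rw [← h5] at h2
    rw [div_le_iff₀ (by positivity)]
    have h6 : (0 : ℝ) ≤ ((|f q p| + |g q p| : ℤ) : ℝ) := by
      have : 0 ≤ |f q p| + |g q p| := by positivity
      exact_mod_cast this
    have h7 : (((|f q p| + |g q p| : ℤ)) : ℝ) ^ 13 ≤ ((K + 1) * q) ^ 13 := by
      apply pow_le_pow_left₀ h6
      push_cast at h3 ⊢
      linarith
    calc c ≤ (((|f q p| + |g q p| : ℤ)) : ℝ) ^ 13 * (|((q : ℤ) : ℝ) * α - p| * L) := h2
      _ ≤ ((K + 1) * q) ^ 13 * (|((q : ℤ) : ℝ) * α - p| * L) := by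
          apply mul_le_mul_of_nonneg_right h7 (by positivity)
      _ = (q : ℝ) ^ 13 * |(q : ℝ) * α - p| * ((K + 1) ^ 13 * L) := by
          rw [Int.cast_natCast]; ring
  · refine (min_le_left _ _).trans ?_
    have : (1 : ℝ) ≤ (q : ℝ) ^ 13 := one_le_pow₀ hqr
    nlinarith

end Pool.Agent.H77.Ben
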