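import Pool.Agent.H77.Ben.Rot
import Pool.Graph.R_seed8.H319R2.Orbit
import Pool.Graph.R_seed8.H319R2.GCount

set_option autoImplicit false

/-!
Sequences of integers whose logarithms move like a rotation up to summable errors.
-/

namespace Pool.Agent.H77.Ben

open Finset Filter Topology
open Pool.Agent.H319R2 (T beta beta_lt orbit_sparse)

/-- the logarithms to the base `b` of the first `m` terms are equidistributed modulo one up to `ε` -/
def Benf (b : ℕ) (x : ℕ → ℤ) (m : ℕ) (ε : ℝ) : Prop :=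
  ∀ u v : ℝ, 0 ≤ u → u ≤ v → v ≤ 1 →
    |(((range m).filter fun i => u ≤ Int.fract (Real.logb b |(x i : ℝ)|) ∧
      Int.fract (Real.logb b |(x i : ℝ)|) < v).card : ℝ) - (v - u) * m| ≤ ε * m

/-- the sum of the reciprocals of the distinct odd terms in an orbit -/
theorem recip_odd (κ : ℝ) (hκ : 0 < κ) : ∃ X : ℝ, 1 ≤ X ∧ ∀ (x₀ : ℤ) (F : Finset ℤ),
    (∀ z ∈ F, (∃ k, T^[k] x₀ = z) ∧ X ≤ |(z : ℝ)|) → ∑ z ∈ F, 1 / |(z : ℝ)| ≤ κ := by
  obtain ⟨C, hC0, hC⟩ := orbit_sparse 0.96 (beta_lt.trans (by norm_num))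
  have hρ : (2 : ℝ) ^ ((0.96 : ℝ) - 1) < 1 := Real.rpow_lt_one_of_one_lt_of_neg (by norm_num) (by norm_num)
  set K : ℝ := C * 2 ^ (0.96 : ℝ) / (1 - 2 ^ ((0.96 : ℝ) - 1)) with hK
  have hK0 : 0 < K := by
    apply div_pos (by positivity) (by linarith)
  have hlim : Tendsto (fun X : ℝ => K * X ^ (-(0.04 : ℝ))) atTop (𝓝 (K * 0)) :=
    (tendsto_rpow_neg_atTop (by norm_num : (0 : ℝ) < 0.04)).const_mul K
  rw [mul_zero] at hlim
  obtain ⟨X, hX⟩ := ((hlim.eventually (gt_mem_nhds hκ)).and (eventually_ge_atTop 1)).exists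
  refine ⟨X, hX.2, fun x₀ F hF => ?_⟩
  have h1 := Pool.Agent.H319R2.G.recip_of_sparse 0.96 C (by norm_num) (by norm_num) hC0.le
    {z | ∃ k, T^[k] x₀ = z} (fun Y hY G hG => hC x₀ Y hY G (fun z hz => hG z hz)) X hX.2 F
    (fun z hz => hF z hz)
  have h2 : K * X ^ ((0.96 : ℝ) - 1) ≤ κ := by
    have e : ((0.96 : ℝ) - 1) = -(0.04 : ℝ) := by norm_num
    have h3 := hX.1.le
    rw [← e] at h3
    exact h3
  exact h1.trans h2

theorem gen (b : ℕ) (hb : 2 ≤ b) (α : ℝ) (hα : Irrational α) (ε : ℝ) (hε : 0 < ε) :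
    ∃ (m₀ : ℕ) (X : ℝ), 1 ≤ X ∧ ∀ (x : ℕ → ℤ) (m : ℕ), m₀ ≤ m → Set.InjOn x (Set.Iio m) →
      (∀ i < m, X ≤ |(x i : ℝ)|) → (∀ i < m, Odd (x i) → ∃ k, T^[k] (x 0) = x i) →
      (∀ i, i + 1 < m → ∃ n : ℤ, |Real.log |(x (i + 1) : ℝ)| - Real.log |(x i : ℝ)| -
        (α + n) * Real.log b| ≤ if Odd (x i) then 1 / |(x i : ℝ)| else 0) →
      Benf b x m ε := by
  classical
  obtain ⟨m₀, δ, hδ, hrot⟩ := rot_equi α hα ε hε
  have hb1 : (1 : ℝ) < b := by exact_mod_cast (by omega : 1 < b)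
  have hlb : 0 < Real.log b := Real.log_pos hb1
  obtain ⟨X, hX1, hX⟩ := recip_odd (δ * Real.log b) (by positivity)
  refine ⟨m₀, X, hX1, fun x m hm hinj hbig horb hstep => ?_⟩
  choose! n hn using hstep
  set N : ℕ → ℤ := fun i => ∑ j ∈ range i, n j with hN
  set e : ℕ → ℝ := fun j => if Odd (x j) then 1 / |(x j : ℝ)| else 0 with he
  set y : ℕ → ℝ := fun i => Real.logb b |(x i : ℝ)| - (N i : ℝ) with hy
  have hrec : ∀ i < m, |y i - (Real.logb b |(x 0 : ℝ)| + i * α)| * Real.log b ≤ ∑ j ∈ range i, e j := by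
    intro i
    induction i with
    | zero =>
      intro _
      simp [hy, hN]
    | succ i ih =>
      intro hi
      have h1 := ih (by omega)
      have h2 := hn i hi
      have hmul : ∀ z : ℝ, Real.logb b z * Real.log b = Real.log z := fun z => by
        rw [Real.logb, div_mul_cancel₀ _ hlb.ne']
      rw [← abs_of_pos hlb, ← abs_mul] at h1 ⊢
      rw [sum_range_succ]
      have e1 : (y (i + 1) - (Real.logb b |(x 0 : ℝ)| + ((i + 1 : ℕ) : ℝ) * α)) * Real.log b =
          (y i - (Real.logb b |(x 0 : ℝ)| + i * α)) * Real.log b +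
          (Real.log |(x (i + 1) : ℝ)| - Real.log |(x i : ℝ)| - (α + n i) * Real.log b) := by
        rw [← hmul |(x (i + 1) : ℝ)|, ← hmul |(x i : ℝ)|, hy]
        dsimp only
        rw [hN]
        dsimp only
        rw [sum_range_succ]
        push_cast
        ring
      rw [e1]
      exact (abs_add_le _ _).trans (add_le_add h1 h2)
  have hsum : ∀ i < m, ∑ j ∈ range i, e j ≤ δ * Real.log b := by
    intro i hi
    set F : Finset ℤ := ((range i).filter fun j => Odd (x j)).image x with hF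
    have h1 := hX (x 0) F (by
      intro z hz
      rw [hF, mem_image] at hz
      obtain ⟨j, hj, rfl⟩ := hz
      rw [mem_filter, mem_range] at hj
      exact ⟨horb j (by omega) hj.2, hbig j (by omega)⟩)
    rw [hF, sum_image (by
      intro j hj k hk hjk
      rw [mem_coe, mem_filter, mem_range] at hj hk
      exact hinj (by simp only [Set.mem_Iio]; omega) (by simp only [Set.mem_Iio]; omega) hjk),
      sum_filter] at h1
    exact h1
  have hclose : ∀ i < m, |y i - (Real.logb b |(x 0 : ℝ)| + i * α)| ≤ δ := by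
    intro i hi
    exact le_of_mul_le_mul_right ((hrec i hi).trans (hsum i hi)) hlb
  intro u v hu huv hv
  have h1 := hrot m hm _ y hclose u v hu huv hv
  have h2 : ∀ i, Int.fract (y i) = Int.fract (Real.logb b |(x i : ℝ)|) := fun i => by
    rw [hy]
    exact Int.fract_sub_intCast _ _
  simp only [h2] at h1
  exact h1

/-- the logarithm of `3 x + 1` -/
theorem log_step (x : ℤ) (hx : 1 ≤ |(x : ℝ)|) :
    |Real.log |((3 * x + 1 : ℤ) : ℝ)| - Real.log |(x : ℝ)| - Real.log 3| ≤ 1 / |(x : ℝ)| := by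
  have hx0 : (x : ℝ) ≠ 0 := by
    intro h
    rw [h, abs_zero] at hx
    linarith
  have hax : 0 < |(x : ℝ)| := abs_pos.2 hx0
  set t : ℝ := 1 / (3 * (x : ℝ)) with ht
  have hta : |t| = 1 / (3 * |(x : ℝ)|) := by
    rw [ht, abs_div, abs_one, abs_mul]; norm_num
  have ht3 : |t| ≤ 1 / 3 := by
    rw [hta]
    apply div_le_div_of_nonneg_left (by norm_num) (by norm_num)
    linarith
  have h1t : 0 < 1 + t := by
    have := abs_le.1 ht3
    linarith
  have e1 : ((3 * x + 1 : ℤ) : ℝ) = 3 * (x : ℝ) * (1 + t) := by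
    rw [ht]; push_cast; field_simp
  have e2 : Real.log |((3 * x + 1 : ℤ) : ℝ)| = Real.log 3 + Real.log |(x : ℝ)| + Real.log (1 + t) := by
    rw [e1, abs_mul, abs_mul, abs_of_pos h1t, Real.log_mul (by positivity) h1t.ne',
      Real.log_mul (by norm_num) hax.ne']
    norm_num
  rw [e2]
  have e3 : Real.log 3 + Real.log |(x : ℝ)| + Real.log (1 + t) - Real.log |(x : ℝ)| - Real.log 3 =
      Real.log (1 + t) := by ring
  rw [e3]
  have h3 : |Real.log (1 + t)| ≤ |t| / (1 - |t|) := by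
    rw [abs_le]
    have h4 := Real.log_le_sub_one_of_pos h1t
    have h5 := Real.one_sub_inv_le_log_of_pos h1t
    have h6 : 0 < 1 - |t| := by linarith
    have h7 := abs_le.1 (le_refl |t|)
    constructor
    · have : -(|t| / (1 - |t|)) ≤ 1 - (1 + t)⁻¹ := by
        have e4 : 1 - (1 + t)⁻¹ = t / (1 + t) := by field_simp; ring
        rw [e4, ← neg_div, div_le_div_iff₀ h6 h1t]
        rcases le_or_gt 0 t with h | h
        · rw [abs_of_nonneg h]; nlinarith
        · rw [abs_of_neg h]; nlinarith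
      linarith
    · have : t ≤ |t| / (1 - |t|) := by
        rw [le_div_iff₀ h6]
        rcases le_or_gt 0 t with h | h
        · rw [abs_of_nonneg h]; nlinarith
        · rw [abs_of_neg h]; nlinarith
      linarith
  refine h3.trans ?_
  rw [div_le_iff₀ (by linarith), hta]
  have : 1 / (3 * |(x : ℝ)|) = (1 / |(x : ℝ)|) * (1 / 3) := by field_simp
  rw [this]
  have h8 : 0 < 1 / |(x : ℝ)| := by positivity
  have h9 : 1 / |(x : ℝ)| ≤ 1 := by rw [div_le_one hax]; exact hx
  nlinarith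

end Pool.Agent.H77.Ben
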