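import Pool.Agent.H77.Ben.RotQ
import Pool.Agent.H77.Ben.Seq
import Pool.Graph.R_pool_sql_team_seeded_63374d34.N905.EX.Rigid

set_option autoImplicit false

/-!
Sequences of integers whose logarithms move like a rotation of finite type: power saving.
-/

namespace Pool.Agent.H77.Ben

open Finset Filter Topology
open Pool.Agent.H319R2 (T finite_subset_path)

/-- the sum of the reciprocals of the elements of an orbit beyond `X` -/
theorem recip_pow : ∃ K : ℝ, 0 < K ∧ ∀ X : ℝ, 1 ≤ X → ∀ (x₀ : ℤ) (F : Finset ℤ),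
    (∀ z ∈ F, (∃ k, T^[k] x₀ = z) ∧ X ≤ |(z : ℝ)|) →
    ∑ z ∈ F, 1 / |(z : ℝ)| ≤ K * X ^ (-(6 / 100) : ℝ) := by
  obtain ⟨A, hA, h⟩ := Pool.Agent.N905.EX.sparse_ex (η := 94 / 100)
    Pool.Agent.N905.EX.eta0_lt (by norm_num)
  have hρ : (2 : ℝ) ^ ((94 / 100 : ℝ) - 1) < 1 := Real.rpow_lt_one_of_one_lt_of_neg (by norm_num) (by norm_num)
  refine ⟨A * 2 ^ (94 / 100 : ℝ) / (1 - 2 ^ ((94 / 100 : ℝ) - 1)), div_pos (by positivity) (by linarith),
    fun X hX x₀ F hF => ?_⟩
  have e : ((94 / 100 : ℝ) - 1) = (-(6 / 100) : ℝ) := by norm_num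
  have hT : Pool.Agent.TH930.EBQ.T 1 = T := rfl
  have h1 := Pool.Agent.H319R2.G.recip_of_sparse (94 / 100) A (by norm_num) (by norm_num) hA.le
    {z | ∃ k, T^[k] x₀ = z} (by
      intro Y hY G hG
      obtain ⟨r, hinj, hr⟩ := finite_subset_path x₀ G (fun z hz => (hG z hz).1)
      have h2 := h 1 odd_one _ (Pool.Agent.H319R2.G.tame_path (Pool.Agent.TH930.EBQ.T 1) x₀ r
        (by rw [hT]; exact hinj)) 0 Y hY G (by
          intro z hz
          obtain ⟨i, hi, he⟩ := hr z hz
          refine ⟨⟨i, hi, by rw [hT]; exact he⟩, ?_⟩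
          rw [sub_zero]
          exact (hG z hz).2)
      simpa using h2) X hX F (fun z hz => hF z hz)
  rw [e] at h1
  rw [e]
  exact h1

theorem genq (b : ℕ) (hb : 2 ≤ b) (α : ℝ) (hα : Typ α) :
    ∃ A : ℝ, 0 < A ∧ ∀ (x : ℕ → ℤ) (m : ℕ) (X : ℝ), 1 ≤ m → 1 ≤ X → Set.InjOn x (Set.Iio m) →
      (∀ i < m, X ≤ |(x i : ℝ)|) → (∀ i < m, Odd (x i) → ∃ k, T^[k] (x 0) = x i) →
      (∀ i, i + 1 < m → ∃ n : ℤ, |Real.log |(x (i + 1) : ℝ)| - Real.log |(x i : ℝ)| -
        (α + n) * Real.log b| ≤ if Odd (x i) then 1 / |(x i : ℝ)| else 0) →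
      Benf b x m (A * ((m : ℝ) ^ (-(1 / 15) : ℝ) + X ^ (-(6 / 100) : ℝ))) := by
  classical
  obtain ⟨C, hC, hrot⟩ := rotq α hα
  have hb1 : (1 : ℝ) < b := by exact_mod_cast (by omega : 1 < b)
  have hlb : 0 < Real.log b := Real.log_pos hb1
  obtain ⟨K, hK, hX⟩ := recip_pow
  refine ⟨C * (1 + K / Real.log b), by positivity, fun x m X hm hX1 hinj hbig horb hstep => ?_⟩
  choose! n hn using hstep
  set N : ℕ → ℤ := fun i => ∑ j ∈ range i, n j with hN
  set e : ℕ → ℝ := fun j => if Odd (x j) then 1 / |(x j : ℝ)| else 0 with he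
  set y : ℕ → ℝ := fun i => Real.logb b |(x i : ℝ)| - (N i : ℝ) with hy
  have hrec : ∀ i < m, |y i - (Real.logb b |(x 0 : ℝ)| + i * α)| * Real.log b ≤ ∑ j ∈ range i, e j := by
    intro i
    induction i with
    | zero =>
      intro _
      simp [hy, hN]
    | succ i ih =>
      intro hi
      have h1 := ih (by omega)
      have h2 := hn i hi
      have hmul : ∀ z : ℝ, Real.logb b z * Real.log b = Real.log z := fun z => by
        rw [Real.logb, div_mul_cancel₀ _ hlb.ne']
      rw [← abs_of_pos hlb, ← abs_mul] at h1 ⊢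
      rw [sum_range_succ]
      have e1 : (y (i + 1) - (Real.logb b |(x 0 : ℝ)| + ((i + 1 : ℕ) : ℝ) * α)) * Real.log b =
          (y i - (Real.logb b |(x 0 : ℝ)| + i * α)) * Real.log b +
          (Real.log |(x (i + 1) : ℝ)| - Real.log |(x i : ℝ)| - (α + n i) * Real.log b) := by
        rw [← hmul |(x (i + 1) : ℝ)|, ← hmul |(x i : ℝ)|, hy]
        dsimp only
        rw [hN]
        dsimp only
        rw [sum_range_succ]
        push_cast
        ring
      rw [e1]
      exact (abs_add_le _ _).trans (add_le_add h1 h2)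
  have hsum : ∀ i < m, ∑ j ∈ range i, e j ≤ K * X ^ (-(6 / 100) : ℝ) := by
    intro i hi
    set F : Finset ℤ := ((range i).filter fun j => Odd (x j)).image x with hF
    have h1 := hX X hX1 (x 0) F (by
      intro z hz
      rw [hF, mem_image] at hz
      obtain ⟨j, hj, rfl⟩ := hz
      rw [mem_filter, mem_range] at hj
      exact ⟨horb j (by omega) hj.2, hbig j (by omega)⟩)
    rw [hF, sum_image (by
      intro j hj k hk hjk
      rw [mem_coe, mem_filter, mem_range] at hj hk
      exact hinj (by simp only [Set.mem_Iio]; omega) (by simp only [Set.mem_Iio]; omega) hjk),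
      sum_filter] at h1
    exact h1
  set δ : ℝ := K / Real.log b * X ^ (-(6 / 100) : ℝ) with hδ
  have hX0 : (0 : ℝ) < X := by linarith
  have hclose : ∀ i < m, |y i - (Real.logb b |(x 0 : ℝ)| + i * α)| ≤ δ := by
    intro i hi
    have h1 := (hrec i hi).trans (hsum i hi)
    have h2 : K * X ^ (-(6 / 100) : ℝ) = δ * Real.log b := by rw [hδ]; field_simp
    rw [h2] at h1
    exact le_of_mul_le_mul_right h1 hlb
  intro u v hu huv hv
  have h1 := hrot m hm δ (by positivity) _ y hclose u v hu huv hv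
  have h2 : ∀ i, Int.fract (y i) = Int.fract (Real.logb b |(x i : ℝ)|) := fun i => by
    rw [hy]
    exact Int.fract_sub_intCast _ _
  simp only [h2] at h1
  refine h1.trans (mul_le_mul_of_nonneg_right ?_ (Nat.cast_nonneg m))
  have hX6 : 0 ≤ X ^ (-(6 / 100) : ℝ) := by positivity
  have hm6 : 0 ≤ (m : ℝ) ^ (-(1 / 15) : ℝ) := by positivity
  rw [hδ]
  have e2 : C * (1 + K / Real.log b) * ((m : ℝ) ^ (-(1 / 15) : ℝ) + X ^ (-(6 / 100) : ℝ)) =
      C * (K / Real.log b * X ^ (-(6 / 100) : ℝ) + (m : ℝ) ^ (-(1 / 15) : ℝ)) +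
      (C * X ^ (-(6 / 100) : ℝ) + C * (K / Real.log b) * (m : ℝ) ^ (-(1 / 15) : ℝ)) := by ring
  rw [e2]
  have : 0 ≤ C * X ^ (-(6 / 100) : ℝ) + C * (K / Real.log b) * (m : ℝ) ^ (-(1 / 15) : ℝ) := by
    positivity
  linarith

lemma typ23 : Typ (-(Real.log 2 / Real.log 3)) := by
  have hl3 : 0 < Real.log 3 := Real.log_pos (by norm_num)
  have hl2 : 0 < Real.log 2 := Real.log_pos (by norm_num)
  have hle : Real.log 2 ≤ Real.log 3 := Real.log_le_log (by norm_num) (by norm_num)
  refine typ_of _ (Real.log 3) 3 hl3 (by norm_num) (fun q _ => -q) (fun _ p => -p) ?_ ?_ ?_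
  · intro q p; push_cast; field_simp; ring
  · intro q p hq; left; omega
  · intro q p hq h
    have hq1 : (1 : ℝ) ≤ q := by exact_mod_cast hq
    have h1 := abs_le.1 h
    have h2 : |(p : ℝ)| ≤ q + 1 := by
      have h3 : 0 ≤ Real.log 2 / Real.log 3 := by positivity
      have h4 : Real.log 2 / Real.log 3 ≤ 1 := (div_le_one hl3).2 hle
      rw [abs_le]
      constructor <;> nlinarith
    push_cast
    rw [abs_neg, abs_neg, abs_of_pos (by linarith : (0 : ℝ) < q)]
    linarith

lemma typ26 : Typ (-(Real.log 2 / Real.log 6)) := by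
  have hl6 : 0 < Real.log 6 := Real.log_pos (by norm_num)
  have hl2 : 0 < Real.log 2 := Real.log_pos (by norm_num)
  have hle : Real.log 2 ≤ Real.log 6 := Real.log_le_log (by norm_num) (by norm_num)
  have hl6' : Real.log 6 = Real.log 2 + Real.log 3 := by
    rw [← Real.log_mul (by norm_num) (by norm_num)]; norm_num
  refine typ_of _ (Real.log 6) 5 hl6 (by norm_num) (fun q p => -(q + p)) (fun _ p => -p) ?_ ?_ ?_
  · intro q p; push_cast
    have : (((q : ℝ) * -(Real.log 2 / Real.log 6) - p)) * Real.log 6 =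
        -(q * Real.log 2) - p * Real.log 6 := by field_simp
    rw [this, hl6']
    ring
  · intro q p hq
    by_cases hp : p = 0
    · left; omega
    · right; omega
  · intro q p hq h
    have hq1 : (1 : ℝ) ≤ q := by exact_mod_cast hq
    have h1 := abs_le.1 h
    have h3 : 0 ≤ Real.log 2 / Real.log 6 := by positivity
    have h4 : Real.log 2 / Real.log 6 ≤ 1 := (div_le_one hl6).2 hle
    have h2 : |(p : ℝ)| ≤ q + 1 := by
      rw [abs_le]
      constructor <;> nlinarith
    push_cast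
    rw [abs_neg, abs_neg]
    have h5 : |(q : ℝ) + p| ≤ |(q : ℝ)| + |(p : ℝ)| := abs_add_le _ _
    rw [abs_of_pos (by linarith : (0 : ℝ) < q)] at h5
    linarith

lemma typ32 : Typ (Real.log 3 / Real.log 2) := by
  have hl3 : 0 < Real.log 3 := Real.log_pos (by norm_num)
  have hl2 : 0 < Real.log 2 := Real.log_pos (by norm_num)
  have hle : Real.log 3 ≤ 2 * Real.log 2 := by
    rw [← Real.log_rpow (by norm_num)]
    exact Real.log_le_log (by norm_num) (by norm_num)
  refine typ_of _ (Real.log 2) 4 hl2 (by norm_num) (fun _ p => -p) (fun q _ => q) ?_ ?_ ?_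
  · intro q p; push_cast; field_simp; ring
  · intro q p hq; right; omega
  · intro q p hq h
    have hq1 : (1 : ℝ) ≤ q := by exact_mod_cast hq
    have h1 := abs_le.1 h
    have h3 : 0 ≤ Real.log 3 / Real.log 2 := by positivity
    have h4 : Real.log 3 / Real.log 2 ≤ 2 := by rw [div_le_iff₀ hl2]; linarith
    have h2 : |(p : ℝ)| ≤ 2 * q + 1 := by
      rw [abs_le]
      constructor <;> nlinarith
    push_cast
    rw [abs_neg, abs_of_pos (by linarith : (0 : ℝ) < q)]
    linarith

end Pool.Agent.H77.Ben
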